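import Pool.Agent.Lib.MP_46c8ea_co.Proof

set_option autoImplicit false

namespace Pool.Agent.Results.MP_46c8ea_co.ExactB3

open Pool.Agent.Lib.MP_46c8ea_co

/-- Exact value of `B_3(2m+1)` for every `m ≥ 2`. -/
theorem result (m : ℕ) (hm : 2 ≤ m) :
    B 3 (2 * m + 1) =
      3 * ((m : ℝ) + 2) /
        (1024 * 4 ^ m * (m : ℝ) ^ 2 * ((m : ℝ) + 1) ^ 3 * (2 * m - 1) * (2 * m + 3) *
          (Nat.factorial (2 * m) : ℝ)) :=
  exact_formula m hm

end Pool.Agent.Results.MP_46c8ea_co.ExactB3
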